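import Pool.Agent.H18.LD.LRG

/-!
# Row FDC of the board ldp: decay of the Fourier transform from bounds for the differences
-/

set_option autoImplicit false

open MeasureTheory Filter Topology Module
open scoped ENNReal ContDiff InnerProductSpace FourierTransform
open Pool.Agent.H80.LD

namespace Pool.Agent.H18.LD

noncomputable section

/-! ### differences of sequences -/

/-- iterated differences of a sequence -/
def Dq : ℕ → (ℕ → ℝ) → (ℕ → ℝ)
  | 0, F => F
  | (m + 1), F => Dq m (fun k => F k - F (k + 1))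

theorem Dq_add (m : ℕ) : ∀ (F G : ℕ → ℝ) (k : ℕ),
    Dq m (fun k => F k + G k) k = Dq m F k + Dq m G k := by
  induction m with
  | zero => intro F G k; rfl
  | succ m ih =>
    intro F G k
    show Dq m (fun k => (F k + G k) - (F (k + 1) + G (k + 1))) k = _
    rw [show (fun k => (F k + G k) - (F (k + 1) + G (k + 1))) =
      fun k => (F k - F (k + 1)) + (G k - G (k + 1)) from funext fun k => by ring, ih]
    rfl

theorem Dq_shift (m : ℕ) : ∀ (F : ℕ → ℝ) (k : ℕ),
    Dq m (fun k => F (k + 1)) k = Dq m F (k + 1) := by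
  induction m with
  | zero => intro F k; rfl
  | succ m ih =>
    intro F k
    show Dq m (fun k => F (k + 1) - F (k + 1 + 1)) k = Dq m (fun k => F k - F (k + 1)) (k + 1)
    exact ih (fun k => F k - F (k + 1)) k

theorem Dq_neg (m : ℕ) : ∀ (F : ℕ → ℝ) (k : ℕ), Dq m (fun k => - F k) k = - Dq m F k := by
  induction m with
  | zero => intro F k; rfl
  | succ m ih =>
    intro F k
    show Dq m (fun k => - F k - - F (k + 1)) k = - Dq m (fun k => F k - F (k + 1)) k
    rw [show (fun k => - F k - - F (k + 1)) = fun k => - (F k - F (k + 1)) from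
      funext fun k => by ring, ih]

theorem Dq_succ (m : ℕ) (F : ℕ → ℝ) (k : ℕ) : Dq (m + 1) F k = Dq m F k - Dq m F (k + 1) := by
  show Dq m (fun k => F k - F (k + 1)) k = _
  rw [show (fun k => F k - F (k + 1)) = fun k => F k + - F (k + 1) from
    funext fun k => by ring, Dq_add m F (fun k => - F (k + 1)) k,
    Dq_neg m (fun k => F (k + 1)) k, Dq_shift]
  ring

theorem Dq_eq_sum (m : ℕ) : ∀ (F : ℕ → ℝ) (k : ℕ),
    Dq m F k = ∑ i ∈ Finset.range (m + 1), (-1) ^ i * (m.choose i : ℝ) * F (k + i) := by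
  induction m with
  | zero => intro F k; simp [Dq]
  | succ m ih =>
    intro F k
    rw [Dq_succ, ih, ih]
    have h1 : ∑ i ∈ Finset.range (m + 1), (-1 : ℝ) ^ i * (m.choose i : ℝ) * F (k + i) =
        ∑ i ∈ Finset.range (m + 2), (-1 : ℝ) ^ i * (m.choose i : ℝ) * F (k + i) := by
      rw [Finset.sum_range_succ _ (m + 1), Nat.choose_succ_self]
      simp
    rw [h1, Finset.sum_range_succ' _ (m + 1), Finset.sum_range_succ' _ (m + 1)]
    rw [show ∀ a b c : ℝ, a + b - c = (a - c) + b from fun a b c => by ring]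
    rw [← Finset.sum_sub_distrib]
    congr 1
    · refine Finset.sum_congr rfl fun i _ => ?_
      rw [Nat.choose_succ_succ, show k + 1 + i = k + (i + 1) by ring]
      push_cast
      ring
    · simp

/-- the constant in the Leibniz rule -/
def PP : ℕ → (ℕ → ℝ) → (ℕ → ℝ) → ℝ
  | 0, a, b => a 0 * b 0
  | (m + 1), a, b => PP m (fun j => a (j + 1)) b + PP m a (fun j => b (j + 1))

theorem leib_bound (m : ℕ) : ∀ (F G a b : ℕ → ℝ) (k : ℕ),
    (∀ j l, l + j ≤ m → |Dq j F (k + l)| ≤ a j) → (∀ j l, l + j ≤ m → |Dq j G (k + l)| ≤ b j) →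
    |Dq m (fun i => F i * G i) k| ≤ PP m a b := by
  induction m with
  | zero =>
    intro F G a b k h1 h2
    show |F k * G k| ≤ a 0 * b 0
    rw [abs_mul]
    have e1 : |F k| ≤ a 0 := h1 0 0 le_rfl
    have e2 : |G k| ≤ b 0 := h2 0 0 le_rfl
    exact mul_le_mul e1 e2 (abs_nonneg _) ((abs_nonneg _).trans e1)
  | succ m ih =>
    intro F G a b k h1 h2
    show |Dq m (fun i => F i * G i - F (i + 1) * G (i + 1)) k| ≤ _
    have e : (fun i => F i * G i - F (i + 1) * G (i + 1)) =
        fun i => (F i - F (i + 1)) * G i + F (i + 1) * (G i - G (i + 1)) :=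
      funext fun i => by ring
    rw [e, Dq_add m (fun i => (F i - F (i + 1)) * G i) (fun i => F (i + 1) * (G i - G (i + 1)))]
    refine (abs_add_le _ _).trans (add_le_add ?_ ?_)
    · refine ih (fun i => F i - F (i + 1)) G (fun j => a (j + 1)) b k ?_ ?_
      · intro j l hjl
        exact h1 (j + 1) l (by omega)
      · intro j l hjl
        exact h2 j l (by omega)
    · refine ih (fun i => F (i + 1)) (fun i => G i - G (i + 1)) a (fun j => b (j + 1)) k ?_ ?_
      · intro j l hjl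
        rw [Dq_shift]
        exact h1 j (l + 1) (by omega)
      · intro j l hjl
        exact h2 (j + 1) l (by omega)

theorem PP_smul (m : ℕ) : ∀ (a b : ℕ → ℝ) (c : ℝ),
    PP m (fun j => c * a j) b = c * PP m a b ∧ PP m a (fun j => c * b j) = c * PP m a b := by
  induction m with
  | zero =>
    intro a b c
    constructor
    · show c * a 0 * b 0 = c * (a 0 * b 0); ring
    · show a 0 * (c * b 0) = c * (a 0 * b 0); ring
  | succ m ih =>
    intro a b c
    constructor
    · show PP m (fun j => c * a (j + 1)) b + PP m (fun j => c * a j) (fun j => b (j + 1)) =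
        c * (PP m (fun j => a (j + 1)) b + PP m a (fun j => b (j + 1)))
      rw [(ih (fun j => a (j + 1)) b c).1, (ih a (fun j => b (j + 1)) c).1]; ring
    · show PP m (fun j => a (j + 1)) (fun j => c * b j) + PP m a (fun j => c * b (j + 1)) =
        c * (PP m (fun j => a (j + 1)) b + PP m a (fun j => b (j + 1)))
      rw [(ih (fun j => a (j + 1)) b c).2, (ih a (fun j => b (j + 1)) c).2]; ring

theorem PP_scale (m : ℕ) : ∀ (a b : ℕ → ℝ) (h : ℝ),
    PP m (fun j => a j * h ^ j) (fun j => b j * h ^ j) = PP m a b * h ^ m := by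
  induction m with
  | zero => intro a b h; show a 0 * h ^ 0 * (b 0 * h ^ 0) = a 0 * b 0 * h ^ 0; ring
  | succ m ih =>
    intro a b h
    show PP m (fun j => a (j + 1) * h ^ (j + 1)) (fun j => b j * h ^ j) +
      PP m (fun j => a j * h ^ j) (fun j => b (j + 1) * h ^ (j + 1)) =
        (PP m (fun j => a (j + 1)) b + PP m a (fun j => b (j + 1))) * h ^ (m + 1)
    rw [show (fun j => a (j + 1) * h ^ (j + 1)) = fun j => h * (a (j + 1) * h ^ j) from
      funext fun j => by ring,
      show (fun j => b (j + 1) * h ^ (j + 1)) = fun j => h * (b (j + 1) * h ^ j) from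
      funext fun j => by ring,
      (PP_smul m (fun j => a (j + 1) * h ^ j) (fun j => b j * h ^ j) h).1,
      (PP_smul m (fun j => a j * h ^ j) (fun j => b (j + 1) * h ^ j) h).2,
      ih (fun j => a (j + 1)) b h, ih a (fun j => b (j + 1)) h]
    ring

/-! ### differences of functions -/

theorem dm_eq_Dq {E : Type} [AddCommGroup E] [Module ℝ E] (m l : ℕ) (h : ℝ) (v : E) (s : E → ℝ)
    (x : E) : dm m h v s (x + ((l : ℝ) * h) • v) = Dq m (fun i => s (x + ((i : ℝ) * h) • v)) l := by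
  rw [Dq_eq_sum]
  unfold dm
  refine Finset.sum_congr rfl fun i _ => ?_
  congr 2
  push_cast
  rw [add_assoc, ← add_smul]
  congr 2
  ring

theorem dm_eq_Dq0 {E : Type} [AddCommGroup E] [Module ℝ E] (m : ℕ) (h : ℝ) (v : E) (s : E → ℝ)
    (x : E) : dm m h v s x = Dq m (fun i => s (x + ((i : ℝ) * h) • v)) 0 := by
  have := dm_eq_Dq m 0 h v s x
  simpa using this

theorem dm_succ {E : Type} [AddCommGroup E] [Module ℝ E] (m : ℕ) (h : ℝ) (v : E) (s : E → ℝ)
    (x : E) : dm (m + 1) h v s x = dm m h v s x - dm m h v s (x + h • v) := by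
  have h1 := dm_eq_Dq m 1 h v s x
  rw [Nat.cast_one, one_mul] at h1
  rw [dm_eq_Dq0, dm_eq_Dq0, h1, Dq_succ]

/-- the differences of a smooth function with compact support -/
theorem dm_smooth {E : Type} [NormedAddCommGroup E] [NormedSpace ℝ E] (v : E) (m : ℕ) :
    ∀ f : E → ℝ, ContDiff ℝ ∞ f → HasCompactSupport f →
      ∃ A : ℝ, 0 ≤ A ∧ ∀ h : ℝ, 0 < h → ∀ x, |dm m h v f x| ≤ A * h ^ m := by
  induction m with
  | zero =>
    intro f hf hs
    obtain ⟨A, hA⟩ := hs.exists_bound_of_continuous hf.continuous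
    refine ⟨|A|, abs_nonneg _, fun h _ x => ?_⟩
    have h1 : dm 0 h v f x = f x := by simp [dm]
    rw [h1, pow_zero, mul_one]
    exact (hA x).trans (le_abs_self _)
  | succ m ih =>
    intro f hf hs
    have hd : Differentiable ℝ f := hf.differentiable (by simp)
    have hf' : ContDiff ℝ ∞ (fun x => fderiv ℝ f x v) :=
      (hf.fderiv_right (m := ∞) (by simp)).clm_apply contDiff_const
    have hs' : HasCompactSupport (fun x => fderiv ℝ f x v) := hs.fderiv_apply (𝕜 := ℝ) v
    obtain ⟨A, hA0, hA⟩ := ih _ hf' hs'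
    refine ⟨A, hA0, fun h hh x => ?_⟩
    rw [dm_succ]
    have hder : ∀ t : ℝ, HasDerivAt (fun t : ℝ => dm m h v f (x + t • v))
        (dm m h v (fun x => fderiv ℝ f x v) (x + t • v)) t := by
      intro t
      unfold dm
      refine HasDerivAt.fun_sum fun i _ => ?_
      refine HasDerivAt.const_mul _ ?_
      have h1 : HasDerivAt (fun t : ℝ => x + t • v + ((i : ℝ) * h) • v) v t := by
        have := (((hasDerivAt_id t).smul_const v).const_add x).add_const (((i : ℝ) * h) • v)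
        simpa using this
      have h2 := ((hd (x + t • v + ((i : ℝ) * h) • v)).hasFDerivAt).comp_hasDerivAt t h1
      exact h2
    have hb := Convex.norm_image_sub_le_of_norm_hasDerivWithin_le (s := Set.univ)
      (f := fun t : ℝ => dm m h v f (x + t • v))
      (f' := fun t : ℝ => dm m h v (fun x => fderiv ℝ f x v) (x + t • v))
      (C := A * h ^ m) (x := 0) (y := h)
      (fun t _ => (hder t).hasDerivWithinAt)
      (fun t _ => by rw [Real.norm_eq_abs]; exact hA h hh _) convex_univ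
      (Set.mem_univ _) (Set.mem_univ _)
    simp only [zero_smul, add_zero, sub_zero, Real.norm_eq_abs, abs_of_pos hh] at hb
    rw [abs_sub_comm]
    calc _ ≤ A * h ^ m * h := hb
      _ = A * h ^ (m + 1) := by ring

/-! ### the Fourier transform of the differences -/

section Fourier

variable {E : Type} [NormedAddCommGroup E] [InnerProductSpace ℝ E] [FiniteDimensional ℝ E]
  [MeasurableSpace E] [BorelSpace E]

theorem fourier_dm (m : ℕ) (h : ℝ) (v : E) (u : E → ℝ) (hu : Continuous u)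
    (hs : HasCompactSupport u) (ξ : E) :
    𝓕 (fun x => ((dm m h v u x : ℝ) : ℂ)) ξ =
      (1 - Complex.exp (Complex.I * ((2 * Real.pi * (h * ⟪v, ξ⟫_ℝ) : ℝ) : ℂ))) ^ m *
        𝓕 (fun x => ((u x : ℝ) : ℂ)) ξ := by
  have hui : Integrable (fun x => ((u x : ℝ) : ℂ)) := by
    refine (Complex.continuous_ofReal.comp hu).integrable_of_hasCompactSupport ?_
    exact hs.comp_left (g := fun r : ℝ => (r : ℂ)) (by simp)
  have htr : ∀ a : E, 𝓕 (fun x => ((u (x + a) : ℝ) : ℂ)) ξ =
      Complex.exp (Complex.I * ((2 * Real.pi * ⟪a, ξ⟫_ℝ : ℝ) : ℂ)) *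
        𝓕 (fun x => ((u x : ℝ) : ℂ)) ξ := by
    intro a
    have h1 := congrFun (VectorFourier.fourierIntegral_comp_add_right Real.fourierChar volume
      (innerₗ E) (fun x : E => ((u x : ℝ) : ℂ)) a) ξ
    have h2 : 𝓕 (fun x => ((u (x + a) : ℝ) : ℂ)) ξ =
        Real.fourierChar (⟪a, ξ⟫_ℝ) • 𝓕 (fun x => ((u x : ℝ) : ℂ)) ξ := h1
    rw [h2, Circle.smul_def, Real.fourierChar_apply, smul_eq_mul, mul_comm Complex.I]
  have hti : ∀ a : E, Integrable (fun x => ((u (x + a) : ℝ) : ℂ)) := fun a =>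
    hui.comp_add_right a
  have hlin : 𝓕 (fun x => ((dm m h v u x : ℝ) : ℂ)) ξ =
      ∑ i ∈ Finset.range (m + 1), (-1 : ℂ) ^ i * (m.choose i : ℂ) *
        𝓕 (fun x => ((u (x + ((i : ℝ) * h) • v) : ℝ) : ℂ)) ξ := by
    simp_rw [Real.fourier_eq', smul_eq_mul, ← integral_const_mul]
    rw [← integral_finsetSum]
    · congr 1; funext x
      unfold dm
      push_cast
      rw [Finset.mul_sum]
      refine Finset.sum_congr rfl fun i _ => ?_
      ring
    · intro i _
      refine Integrable.const_mul ?_ _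
      refine ((hti (((i : ℝ) * h) • v)).norm).mono' ?_ (Eventually.of_forall fun x => ?_)
      · exact (cont_exp (-2 * Real.pi) ξ).aestronglyMeasurable.mul (hti _).1
      · rw [norm_mul, Complex.norm_exp_ofReal_mul_I, one_mul]
  rw [hlin]
  simp_rw [htr]
  set z : ℂ := Complex.exp (Complex.I * ((2 * Real.pi * (h * ⟪v, ξ⟫_ℝ) : ℝ) : ℂ)) with hz
  have hzi : ∀ i : ℕ, Complex.exp (Complex.I * ((2 * Real.pi * ⟪((i : ℝ) * h) • v, ξ⟫_ℝ : ℝ) : ℂ)) =
      z ^ i := by
    intro i
    rw [hz, ← Complex.exp_nat_mul, real_inner_smul_left]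
    congr 1
    push_cast; ring
  simp_rw [hzi]
  rw [sub_eq_add_neg, add_comm (1 : ℂ), add_pow, Finset.sum_mul]
  refine Finset.sum_congr rfl fun i _ => ?_
  rw [one_pow, neg_pow]
  ring

theorem one_sub_exp_ge {θ : ℝ} (h : |θ| ≤ Real.pi) :
    2 / Real.pi * |θ| ≤ ‖1 - Complex.exp (Complex.I * (θ : ℂ))‖ := by
  rw [norm_sub_rev, Complex.norm_exp_I_mul_ofReal_sub_one, norm_mul, Real.norm_eq_abs,
    Real.norm_eq_abs, abs_two]
  have h1 : |θ / 2| ≤ Real.pi / 2 := by
    rw [abs_div, abs_two]; linarith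
  have h2 := Real.mul_abs_le_abs_sin h1
  rw [abs_div, abs_two] at h2
  linarith

/-- one direction -/
theorem dir_bound (m : ℕ) (v : E) (χ : E → ℝ) (U : Set E) (C η : ℕ → ℝ)
    (hχ : ContDiff ℝ ∞ χ) (hs : HasCompactSupport χ) (hU : IsOpen U) (hχU : tsupport χ ⊆ U)
    (hη : ∀ m, 0 < η m) : ∃ K : ℝ, ∀ s : E → ℝ, ContinuousOn s U →
    (∀ m, ∀ h : ℝ, 0 < h → h ≤ η m → ∀ x ∈ U, (∀ i ≤ m, x + ((i : ℝ) * h) • v ∈ U) →
      |dm m h v s x| ≤ C m * h ^ m) →
    ∀ ξ : E, |⟪v, ξ⟫_ℝ| ^ m * ‖𝓕 (fun x => ((χ x * s x : ℝ) : ℂ)) ξ‖ ≤ K := by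
  classical
  -- the step
  obtain ⟨j0, -, hj0⟩ := Finset.exists_min_image (Finset.range (m + 1)) η ⟨0, by simp⟩
  obtain ⟨ρ, hρ, hρU⟩ := hs.isCompact.exists_thickening_subset_open hU hχU
  set h0 : ℝ := min (η j0) (ρ / (2 * (m * ‖v‖ + 1))) with hh0
  have hmv : 0 ≤ (m : ℝ) * ‖v‖ := by positivity
  have hh0p : 0 < h0 := lt_min (hη j0) (by positivity)
  have hh0η : ∀ j ≤ m, h0 ≤ η j := fun j hj =>
    (min_le_left _ _).trans (hj0 j (by simpa using Nat.lt_succ_of_le hj))
  have hh0ρ : ∀ h, 0 < h → h ≤ h0 → ∀ i : ℕ, i ≤ m → ((i : ℝ) * h) * ‖v‖ < ρ := by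
    intro h hh hle i hi
    have h1 : h ≤ ρ / (2 * (m * ‖v‖ + 1)) := hle.trans (min_le_right _ _)
    rw [le_div_iff₀ (by positivity)] at h1
    have h2 : ((i : ℝ) * h) * ‖v‖ ≤ h * ((m : ℝ) * ‖v‖) := by
      have : (i : ℝ) ≤ m := by exact_mod_cast hi
      calc ((i : ℝ) * h) * ‖v‖ = i * (h * ‖v‖) := by ring
        _ ≤ m * (h * ‖v‖) := mul_le_mul_of_nonneg_right this (by positivity)
        _ = _ := by ring
    have h3 : 0 ≤ h * ((m : ℝ) * ‖v‖) := by positivity
    nlinarith
  -- the constants for the cut off function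
  have hA : ∀ j, ∃ A : ℝ, 0 ≤ A ∧ ∀ h : ℝ, 0 < h → ∀ x, |dm j h v χ x| ≤ A * h ^ j :=
    fun j => dm_smooth v j χ hχ hs
  choose A hA0 hA using hA
  set K0 : Set E := Metric.cthickening ρ (tsupport χ) with hK0
  have hK0c : IsCompact K0 := hs.isCompact.cthickening
  set P : ℝ := |PP m A C| with hP
  have hP0 : 0 ≤ P := abs_nonneg _
  refine ⟨volume.real K0 * P, ?_⟩
  intro s hsU hb ξ
  set u : E → ℝ := fun x => χ x * s x with hu
  have hsub : tsupport u ⊆ tsupport χ := tsupport_mul_subset_left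
  have huc : Continuous u := by
    refine continuous_of_tsupport fun x hx => ?_
    exact hχ.continuous.continuousAt.mul (hsU.continuousAt (hU.mem_nhds (hχU (hsub hx))))
  have hus : HasCompactSupport u := hs.mono' ((subset_tsupport u).trans hsub)
  -- the bound for the differences
  have hdiff : ∀ h, 0 < h → h ≤ h0 → ∀ x, |dm m h v u x| ≤ K0.indicator (fun _ => P * h ^ m) x := by
    intro h hh hle x
    by_cases hx : ∃ i ≤ m, x + ((i : ℝ) * h) • v ∈ tsupport χ
    · obtain ⟨i, hi, hxi⟩ := hx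
      have hall : ∀ j ≤ m, x + ((j : ℝ) * h) • v ∈ U := by
        intro j hj
        refine hρU (Metric.mem_thickening_iff.2 ⟨_, hxi, ?_⟩)
        rw [dist_eq_norm, add_sub_add_left_eq_sub, ← sub_smul, norm_smul, Real.norm_eq_abs]
        rcases le_total i j with hij | hij
        · have h1 : |(j : ℝ) * h - (i : ℝ) * h| = ((j - i : ℕ) : ℝ) * h := by
            rw [Nat.cast_sub hij, ← sub_mul]
            refine abs_of_nonneg (mul_nonneg ?_ hh.le)
            have : (i : ℝ) ≤ j := by exact_mod_cast hij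
            linarith
          rw [h1]
          exact hh0ρ h hh hle _ (by omega)
        · have h1 : |(j : ℝ) * h - (i : ℝ) * h| = ((i - j : ℕ) : ℝ) * h := by
            rw [Nat.cast_sub hij, abs_sub_comm, ← sub_mul]
            refine abs_of_nonneg (mul_nonneg ?_ hh.le)
            have : (j : ℝ) ≤ i := by exact_mod_cast hij
            linarith
          rw [h1]
          exact hh0ρ h hh hle _ (by omega)
      have hxK : x ∈ K0 := by
        refine Metric.thickening_subset_cthickening _ _ (Metric.mem_thickening_iff.2 ⟨_, hxi, ?_⟩)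
        rw [dist_comm, dist_eq_norm, add_sub_cancel_left, norm_smul, Real.norm_eq_abs,
          abs_of_nonneg (by positivity)]
        exact hh0ρ h hh hle i hi
      rw [Set.indicator_of_mem hxK, dm_eq_Dq0]
      refine le_trans ?_ (mul_le_mul_of_nonneg_right (le_abs_self (PP m A C))
        (pow_nonneg hh.le m))
      rw [← PP_scale]
      refine leib_bound m (fun i => χ (x + ((i : ℝ) * h) • v)) (fun i => s (x + ((i : ℝ) * h) • v))
        _ _ 0 ?_ ?_
      · intro j l hjl
        rw [zero_add, ← dm_eq_Dq]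
        exact hA j h hh _
      · intro j l hjl
        rw [zero_add, ← dm_eq_Dq]
        refine hb j h hh (hle.trans (hh0η j (by omega))) _ (hall l (by omega)) ?_
        intro i' hi'
        have := hall (l + i') (by omega)
        rw [Nat.cast_add, add_mul, add_smul, ← add_assoc] at this
        exact this
    · push Not at hx
      have h0' : dm m h v u x = 0 := by
        unfold dm
        refine Finset.sum_eq_zero fun i hi => ?_
        have h1 : χ (x + ((i : ℝ) * h) • v) = 0 :=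
          image_eq_zero_of_notMem_tsupport (hx i (by
            rw [Finset.mem_range] at hi; omega))
        rw [hu]
        show (-1) ^ i * (m.choose i : ℝ) * (χ (x + ((i : ℝ) * h) • v) * _) = 0
        rw [h1]; ring
      rw [h0', abs_zero]
      exact Set.indicator_nonneg (fun _ _ => mul_nonneg hP0 (pow_nonneg hh.le m)) x
  -- the main inequality
  have hmain : ∀ h, 0 < h → h ≤ h0 →
      ‖1 - Complex.exp (Complex.I * ((2 * Real.pi * (h * ⟪v, ξ⟫_ℝ) : ℝ) : ℂ))‖ ^ m *
        ‖𝓕 (fun x => ((u x : ℝ) : ℂ)) ξ‖ ≤ volume.real K0 * P * h ^ m := by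
    intro h hh hle
    rw [← norm_pow, ← norm_mul, ← fourier_dm m h v u huc hus ξ]
    have h1 : ‖𝓕 (fun x => ((dm m h v u x : ℝ) : ℂ)) ξ‖ ≤
        ∫ x, ‖((dm m h v u x : ℝ) : ℂ)‖ :=
      VectorFourier.norm_fourierIntegral_le_integral_norm Real.fourierChar volume (innerₗ E)
        (fun x => ((dm m h v u x : ℝ) : ℂ)) ξ
    have hint : Integrable (K0.indicator (fun _ : E => P * h ^ m)) :=
      (continuous_const.continuousOn.integrableOn_compact hK0c).integrable_indicator
        hK0c.measurableSet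
    have h2 : ∫ x, ‖((dm m h v u x : ℝ) : ℂ)‖ ≤ ∫ x, K0.indicator (fun _ : E => P * h ^ m) x := by
      refine integral_mono_of_nonneg (Eventually.of_forall fun x => norm_nonneg _) hint
        (Eventually.of_forall fun x => ?_)
      show ‖((dm m h v u x : ℝ) : ℂ)‖ ≤ _
      rw [Complex.norm_real, Real.norm_eq_abs]
      exact hdiff h hh hle x
    rw [integral_indicator_const _ hK0c.measurableSet, smul_eq_mul] at h2
    rw [mul_assoc]
    exact h1.trans h2
  set a : ℝ := ⟪v, ξ⟫_ℝ with ha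
  set h : ℝ := min h0 (1 / (2 * (|a| + 1))) with hh
  have hhp : 0 < h := lt_min hh0p (by positivity)
  have hha : h * |a| ≤ 1 / 2 := by
    have h1 : h ≤ 1 / (2 * (|a| + 1)) := min_le_right _ _
    rw [le_div_iff₀ (by positivity)] at h1
    nlinarith [abs_nonneg a]
  have hθ : |2 * Real.pi * (h * a)| ≤ Real.pi := by
    rw [abs_mul, abs_mul h a, abs_of_pos hhp, abs_of_pos (by positivity : 0 < 2 * Real.pi)]
    nlinarith [Real.pi_pos]
  have h1 := one_sub_exp_ge hθ
  have h2 : h * |a| ≤ ‖1 - Complex.exp (Complex.I * ((2 * Real.pi * (h * a) : ℝ) : ℂ))‖ := by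
    refine le_trans ?_ h1
    rw [abs_mul, abs_mul h a, abs_of_pos hhp, abs_of_pos (by positivity : 0 < 2 * Real.pi)]
    have h3 : 2 / Real.pi * (2 * Real.pi * (h * |a|)) = 4 * (h * |a|) := by
      field_simp; ring
    rw [h3]
    nlinarith [mul_nonneg hhp.le (abs_nonneg a)]
  have h3 := hmain h hhp (min_le_left _ _)
  have h4 : (h * |a|) ^ m * ‖𝓕 (fun x => ((u x : ℝ) : ℂ)) ξ‖ ≤ volume.real K0 * P * h ^ m :=
    (mul_le_mul_of_nonneg_right (pow_le_pow_left₀ (by positivity) h2 m) (norm_nonneg _)).trans h3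
  have h5 : h ^ m * (|a| ^ m * ‖𝓕 (fun x => ((u x : ℝ) : ℂ)) ξ‖) ≤
      h ^ m * (volume.real K0 * P) := by
    calc _ = (h * |a|) ^ m * ‖𝓕 (fun x => ((u x : ℝ) : ℂ)) ξ‖ := by rw [mul_pow]; ring
      _ ≤ _ := h4
      _ = _ := by ring
  exact le_of_mul_le_mul_left h5 (pow_pos hhp m)

omit [MeasurableSpace E] [BorelSpace E] in
/-- the directions span the space -/
theorem span_bound (D : Finset E) (hD : Submodule.span ℝ (D : Set E) = ⊤) (hne : D.Nonempty) :
    ∃ A : ℝ, 0 ≤ A ∧ ∀ ξ : E, ∃ v ∈ D, ‖ξ‖ ≤ A * |⟪v, ξ⟫_ℝ| := by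
  set Λ : E →ₗ[ℝ] (D → ℝ) := LinearMap.pi (fun v : D => (innerₗ E) (v : E)) with hΛ
  have hker : LinearMap.ker Λ = ⊥ := by
    rw [LinearMap.ker_eq_bot']
    intro ξ hξ
    have h1 : ∀ v ∈ D, ⟪v, ξ⟫_ℝ = 0 := fun v hv => congrFun hξ ⟨v, hv⟩
    have h2 : ∀ w ∈ Submodule.span ℝ (D : Set E), ⟪w, ξ⟫_ℝ = 0 := by
      intro w hw
      induction hw using Submodule.span_induction with
      | mem x hx => exact h1 x hx
      | zero => exact inner_zero_left _
      | add x y _ _ hx hy => rw [inner_add_left, hx, hy, add_zero]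
      | smul c x _ hx => rw [real_inner_smul_left, hx, mul_zero]
    have h3 := h2 ξ (by rw [hD]; exact Submodule.mem_top)
    exact inner_self_eq_zero.1 h3
  obtain ⟨A, hA, hA'⟩ := Λ.exists_antilipschitzWith hker
  refine ⟨A, A.2, fun ξ => ?_⟩
  obtain ⟨v, hv, hmax⟩ := Finset.exists_max_image D (fun v => |⟪v, ξ⟫_ℝ|) hne
  refine ⟨v, hv, ?_⟩
  have h1 := hA'.le_mul_dist ξ 0
  rw [map_zero, dist_zero_right, dist_zero_right] at h1
  refine h1.trans (mul_le_mul_of_nonneg_left ?_ A.2)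
  rw [pi_norm_le_iff_of_nonneg (abs_nonneg _)]
  intro w
  exact hmax w w.2

theorem pf_FDC : T_FDC := by
  intro E _ _ _ _ _ χ U D C η hχ hs hU hχU hD hne hη M
  obtain ⟨A, hA0, hA⟩ := span_bound D hD hne
  have h1 : ∀ v : E, ∃ K : ℝ, ∀ s : E → ℝ, ContinuousOn s U →
      (∀ m, ∀ h : ℝ, 0 < h → h ≤ η m → ∀ x ∈ U, (∀ i ≤ m, x + ((i : ℝ) * h) • v ∈ U) →
        |dm m h v s x| ≤ C m * h ^ m) →
      ∀ ξ : E, |⟪v, ξ⟫_ℝ| ^ M * ‖𝓕 (fun x => ((χ x * s x : ℝ) : ℂ)) ξ‖ ≤ K := fun v =>
    dir_bound M v χ U C η hχ hs hU hχU hη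
  choose K hK using h1
  refine ⟨A ^ M * ∑ v ∈ D, |K v|, fun s hsU hb ξ => ?_⟩
  obtain ⟨v, hv, hle⟩ := hA ξ
  have h2 := hK v s hsU (fun m h hh hle' x hx hall => hb m v hv h hh hle' x hx hall) ξ
  calc ‖ξ‖ ^ M * ‖𝓕 (fun x => ((χ x * s x : ℝ) : ℂ)) ξ‖
      ≤ (A * |⟪v, ξ⟫_ℝ|) ^ M * ‖𝓕 (fun x => ((χ x * s x : ℝ) : ℂ)) ξ‖ :=
        mul_le_mul_of_nonneg_right (pow_le_pow_left₀ (norm_nonneg _) hle M) (norm_nonneg _)
    _ = A ^ M * (|⟪v, ξ⟫_ℝ| ^ M * ‖𝓕 (fun x => ((χ x * s x : ℝ) : ℂ)) ξ‖) := by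
        rw [mul_pow]; ring
    _ ≤ A ^ M * ∑ v ∈ D, |K v| := by
        refine mul_le_mul_of_nonneg_left ?_ (pow_nonneg hA0 M)
        exact (h2.trans (le_abs_self _)).trans
          (Finset.single_le_sum (f := fun v => |K v|) (fun v _ => abs_nonneg _) hv)

end Fourier

end

end Pool.Agent.H18.LD
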