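import Pool.Agent.H80.LD.Targets

/-!
# Row LRG of the board ldp: limits of functions with uniformly decaying Fourier transforms
-/

set_option autoImplicit false

open MeasureTheory Filter Topology Module
open scoped ENNReal ContDiff InnerProductSpace FourierTransform
open Pool.Agent.H80.LD

namespace Pool.Agent.H18.LD

noncomputable section

variable {E : Type} [NormedAddCommGroup E] [InnerProductSpace ℝ E] [FiniteDimensional ℝ E]
  [MeasurableSpace E] [BorelSpace E]

/-- functions of rapid decay have integrable moments, uniformly -/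
theorem decay_integrable (C : ℕ → ℝ) (n : ℕ) : ∃ B : ℝ, 0 ≤ B ∧ ∀ g : E → ℂ,
    AEStronglyMeasurable g volume → (∀ (M : ℕ) (ξ : E), ‖ξ‖ ^ M * ‖g ξ‖ ≤ C M) →
    Integrable (fun ξ => ‖ξ‖ ^ n * ‖g ξ‖) ∧ ∫ ξ, ‖ξ‖ ^ n * ‖g ξ‖ ≤ B := by
  set N : ℕ := finrank ℝ E + 1 with hN
  set A : ℝ := 2 ^ (N - 1) * (C n + C (n + N)) with hA
  have hint : Integrable (fun ξ : E => A * (1 + ‖ξ‖) ^ (-(N : ℝ))) volume := by
    refine (integrable_one_add_norm ?_).const_mul A
    rw [hN]; push_cast; linarith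
  refine ⟨|∫ ξ : E, A * (1 + ‖ξ‖) ^ (-(N : ℝ))|, abs_nonneg _, ?_⟩
  intro g hg hd
  have hb : ∀ ξ : E, ‖ξ‖ ^ n * ‖g ξ‖ ≤ A * (1 + ‖ξ‖) ^ (-(N : ℝ)) := by
    intro ξ
    have h0 : (0 : ℝ) < 1 + ‖ξ‖ := by positivity
    rw [Real.rpow_neg h0.le, Real.rpow_natCast, ← div_eq_mul_inv, le_div_iff₀ (by positivity)]
    have h1 : (1 + ‖ξ‖) ^ N ≤ 2 ^ (N - 1) * (1 ^ N + ‖ξ‖ ^ N) :=
      add_pow_le zero_le_one (norm_nonneg ξ) N
    have h2 : 0 ≤ ‖ξ‖ ^ n * ‖g ξ‖ := by positivity
    calc ‖ξ‖ ^ n * ‖g ξ‖ * (1 + ‖ξ‖) ^ N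
        ≤ ‖ξ‖ ^ n * ‖g ξ‖ * (2 ^ (N - 1) * (1 ^ N + ‖ξ‖ ^ N)) :=
          mul_le_mul_of_nonneg_left h1 h2
      _ = 2 ^ (N - 1) * (‖ξ‖ ^ n * ‖g ξ‖ + ‖ξ‖ ^ (n + N) * ‖g ξ‖) := by
          rw [one_pow, pow_add]; ring
      _ ≤ A := by
          rw [hA]
          exact mul_le_mul_of_nonneg_left (add_le_add (hd n ξ) (hd (n + N) ξ)) (by positivity)
  have hm : AEStronglyMeasurable (fun ξ : E => ‖ξ‖ ^ n * ‖g ξ‖) volume := by
    exact ((continuous_norm.pow n).aestronglyMeasurable).mul hg.norm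
  have hi : Integrable (fun ξ : E => ‖ξ‖ ^ n * ‖g ξ‖) := by
    refine hint.mono' hm (Eventually.of_forall fun ξ => ?_)
    rw [Real.norm_of_nonneg (by positivity)]
    exact hb ξ
  exact ⟨hi, (integral_mono hi hint hb).trans (le_abs_self _)⟩

/-- the Fourier transform of an integrable function is continuous -/
theorem cont_fourier {f : E → ℂ} (hf : Integrable f) : Continuous (𝓕 f) := by
  exact VectorFourier.fourierIntegral_continuous Real.continuous_fourierChar
    (by exact continuous_inner) hf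

/-- the difference of two exponentials -/
theorem norm_exp_sub_le (a b : ℝ) :
    ‖Complex.exp ((a : ℂ) * Complex.I) - Complex.exp ((b : ℂ) * Complex.I)‖ ≤ |a - b| := by
  have h : Complex.exp ((a : ℂ) * Complex.I) - Complex.exp ((b : ℂ) * Complex.I) =
      Complex.exp ((b : ℂ) * Complex.I) * (Complex.exp (Complex.I * ((a - b : ℝ) : ℂ)) - 1) := by
    rw [mul_sub, mul_one, ← Complex.exp_add]
    congr 2
    push_cast; ring
  rw [h, norm_mul, Complex.norm_exp_ofReal_mul_I, one_mul]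
  exact Real.norm_exp_I_mul_ofReal_sub_one_le

omit [FiniteDimensional ℝ E] [MeasurableSpace E] [BorelSpace E] in
/-- continuity of the exponentials -/
theorem cont_exp (c : ℝ) (z : E) :
    Continuous (fun v : E => Complex.exp ((↑(c * ⟪v, z⟫_ℝ) * Complex.I))) := by
  refine Complex.continuous_exp.comp (Continuous.mul (Complex.continuous_ofReal.comp ?_)
    continuous_const)
  exact continuous_const.mul (continuous_id.inner continuous_const)

/-- the inverse Fourier transform of a function of rapid decay is bounded and Lipschitz -/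
theorem inv_bounds {g : E → ℂ} (hg : Integrable g) (hg1 : Integrable (fun ξ : E => ‖ξ‖ ^ 1 * ‖g ξ‖))
    (x y : E) : ‖𝓕⁻ g x‖ ≤ ∫ ξ, ‖g ξ‖ ∧
      ‖𝓕⁻ g x - 𝓕⁻ g y‖ ≤ (2 * Real.pi * ∫ ξ, ‖ξ‖ ^ 1 * ‖g ξ‖) * ‖x - y‖ := by
  have hint : ∀ z : E, Integrable (fun v : E =>
      Complex.exp ((↑(2 * Real.pi * ⟪v, z⟫_ℝ) * Complex.I)) • g v) := by
    intro z
    refine hg.norm.mono' ?_ (Eventually.of_forall fun v => ?_)
    · exact (cont_exp (2 * Real.pi) z).aestronglyMeasurable.smul hg.1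
    · rw [norm_smul, Complex.norm_exp_ofReal_mul_I, one_mul]
  constructor
  · rw [Real.fourierInv_eq']
    refine (norm_integral_le_integral_norm _).trans (le_of_eq ?_)
    congr 1; funext v
    rw [norm_smul, Complex.norm_exp_ofReal_mul_I, one_mul]
  · rw [Real.fourierInv_eq', Real.fourierInv_eq', ← integral_sub (hint x) (hint y)]
    refine (norm_integral_le_integral_norm _).trans ?_
    rw [mul_assoc, mul_comm (∫ ξ, ‖ξ‖ ^ 1 * ‖g ξ‖) ‖x - y‖, ← mul_assoc, ← integral_const_mul]
    refine integral_mono_of_nonneg (Eventually.of_forall fun v => norm_nonneg _)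
      (hg1.const_mul _) (Eventually.of_forall fun v => ?_)
    show ‖_‖ ≤ _
    rw [← sub_smul, norm_smul]
    have h1 := norm_exp_sub_le (2 * Real.pi * ⟪v, x⟫_ℝ) (2 * Real.pi * ⟪v, y⟫_ℝ)
    have h2 : |2 * Real.pi * ⟪v, x⟫_ℝ - 2 * Real.pi * ⟪v, y⟫_ℝ| ≤
        2 * Real.pi * (‖v‖ * ‖x - y‖) := by
      rw [← mul_sub, ← inner_sub_right, abs_mul, abs_of_pos (by positivity : 0 < 2 * Real.pi)]
      exact mul_le_mul_of_nonneg_left (abs_real_inner_le_norm _ _) (by positivity)
    calc _ ≤ (2 * Real.pi * (‖v‖ * ‖x - y‖)) * ‖g v‖ :=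
          mul_le_mul_of_nonneg_right (h1.trans h2) (norm_nonneg _)
      _ = 2 * Real.pi * ‖x - y‖ * (‖v‖ ^ 1 * ‖g v‖) := by ring

theorem pf_LRG : T_LRG := by
  intro E _ _ _ _ _ u K hK hc hz hd hav
  choose C hC using hd
  -- the complex functions
  set f : ℕ → E → ℂ := fun k x => ((u k x : ℝ) : ℂ) with hf
  have hfc : ∀ k, Continuous (f k) := fun k => Complex.continuous_ofReal.comp (hc k)
  have hfs : ∀ k, HasCompactSupport (f k) := fun k =>
    HasCompactSupport.intro hK (fun x hx => by simp [hf, hz k x hx])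
  have hfi : ∀ k, Integrable (f k) := fun k => (hfc k).integrable_of_hasCompactSupport (hfs k)
  have hgc : ∀ k, Continuous (𝓕 (f k)) := fun k => cont_fourier (hfi k)
  obtain ⟨B0, hB0, hB0'⟩ := decay_integrable (E := E) C 0
  obtain ⟨B1, hB1, hB1'⟩ := decay_integrable (E := E) C 1
  have hI0 : ∀ k, Integrable (𝓕 (f k)) := by
    intro k
    have h := (hB0' (𝓕 (f k)) (hgc k).aestronglyMeasurable (fun M ξ => hC M k ξ)).1
    simp only [pow_zero, one_mul] at h
    exact (integrable_norm_iff (hgc k).aestronglyMeasurable).1 h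
  have hI1 : ∀ k, Integrable (fun ξ : E => ‖ξ‖ ^ 1 * ‖𝓕 (f k) ξ‖) := fun k =>
    (hB1' (𝓕 (f k)) (hgc k).aestronglyMeasurable (fun M ξ => hC M k ξ)).1
  have hN0 : ∀ k, ∫ ξ, ‖𝓕 (f k) ξ‖ ≤ B0 := by
    intro k
    have h := (hB0' (𝓕 (f k)) (hgc k).aestronglyMeasurable (fun M ξ => hC M k ξ)).2
    simpa only [pow_zero, one_mul] using h
  have hN1 : ∀ k, ∫ ξ, ‖ξ‖ ^ 1 * ‖𝓕 (f k) ξ‖ ≤ B1 := fun k =>
    (hB1' (𝓕 (f k)) (hgc k).aestronglyMeasurable (fun M ξ => hC M k ξ)).2
  have hinv : ∀ k, 𝓕⁻ (𝓕 (f k)) = f k := fun k => (hfc k).fourierInv_fourier_eq (hfi k) (hI0 k)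
  set L : ℝ := 2 * Real.pi * B1 with hL
  have hL0 : 0 ≤ L := by positivity
  have hbd : ∀ k x, |u k x| ≤ B0 := by
    intro k x
    have h := (inv_bounds (hI0 k) (hI1 k) x x).1
    rw [hinv k] at h
    have h2 : ‖f k x‖ = |u k x| := by simp [hf]
    rw [← h2]
    exact h.trans (hN0 k)
  have hlip : ∀ k x y, |u k x - u k y| ≤ L * ‖x - y‖ := by
    intro k x y
    have h := (inv_bounds (hI0 k) (hI1 k) x y).2
    rw [hinv k] at h
    have h2 : ‖f k x - f k y‖ = |u k x - u k y| := by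
      simp only [hf]
      rw [← Complex.ofReal_sub, Complex.norm_real, Real.norm_eq_abs]
    rw [← h2]
    refine h.trans (mul_le_mul_of_nonneg_right ?_ (norm_nonneg _))
    exact mul_le_mul_of_nonneg_left (hN1 k) (by positivity)
  -- pointwise convergence
  have hlim : ∀ x, ∃ l, Tendsto (fun k => u k x) atTop (𝓝 l) := by
    intro x
    refine cauchySeq_tendsto_of_complete ?_
    rw [Metric.cauchySeq_iff]
    intro ε hε
    have hδ : 0 < ε / (4 * (L + 1)) := by positivity
    obtain ⟨g, hgc, hg0, hg1, hgs, l, hl⟩ := hav x (ε / (4 * (L + 1))) hδ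
    have hgi : Integrable g := integrable_of_integral_eq_one hg1
    have happ : ∀ k, |u k x - ∫ y, u k y * g y| ≤ ε / 4 := by
      intro k
      have hugi : Integrable (fun y => u k y * g y) := by
        refine (hgi.const_mul B0).mono' ((hc k).mul hgc).aestronglyMeasurable
          (Eventually.of_forall fun y => ?_)
        rw [Real.norm_eq_abs, abs_mul, abs_of_nonneg (hg0 y)]
        exact mul_le_mul_of_nonneg_right (hbd k y) (hg0 y)
      have h1 : u k x - ∫ y, u k y * g y = ∫ y, (u k x - u k y) * g y := by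
        simp_rw [sub_mul]
        rw [integral_sub (hgi.const_mul _) hugi, integral_const_mul, hg1, mul_one]
      rw [h1, ← Real.norm_eq_abs]
      refine (norm_integral_le_integral_norm _).trans ?_
      have h2 : ∫ y, ‖(u k x - u k y) * g y‖ ≤ ∫ y, (ε / 4) * g y := by
        refine integral_mono_of_nonneg (Eventually.of_forall fun y => norm_nonneg _)
          (hgi.const_mul _) (Eventually.of_forall fun y => ?_)
        show ‖(u k x - u k y) * g y‖ ≤ ε / 4 * g y
        rw [norm_mul, Real.norm_of_nonneg (hg0 y), Real.norm_eq_abs]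
        by_cases hgy : g y = 0
        · rw [hgy, mul_zero, mul_zero]
        · refine mul_le_mul_of_nonneg_right ?_ (hg0 y)
          refine (hlip k x y).trans ?_
          have h3 : ‖x - y‖ ≤ ε / (4 * (L + 1)) := by
            rw [norm_sub_rev]; exact hgs y hgy
          calc L * ‖x - y‖ ≤ (L + 1) * (ε / (4 * (L + 1))) :=
                mul_le_mul (by linarith) h3 (norm_nonneg _) (by positivity)
            _ = ε / 4 := by field_simp
      rw [integral_const_mul, hg1, mul_one] at h2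
      exact h2
    rw [Metric.tendsto_atTop] at hl
    obtain ⟨N, hN⟩ := hl (ε / 8) (by positivity)
    refine ⟨N, fun m hm n hn => ?_⟩
    have a1 := happ m
    have a2 := happ n
    have a3 := hN m hm
    have a4 := hN n hn
    rw [Real.dist_eq] at a3 a4 ⊢
    rw [abs_le] at a1 a2
    rw [abs_lt] at a3 a4 ⊢
    constructor <;> linarith [a1.1, a1.2, a2.1, a2.2, a3.1, a3.2, a4.1, a4.2]
  choose u' hu' using hlim
  have hu'b : ∀ x, |u' x| ≤ B0 := fun x =>
    le_of_tendsto ((continuous_abs.tendsto _).comp (hu' x)) (Eventually.of_forall fun k => hbd k x)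
  have hu'z : ∀ x ∉ K, u' x = 0 := fun x hx =>
    tendsto_nhds_unique (hu' x) (by simp [hz _ x hx])
  have hu'l : ∀ x y, |u' x - u' y| ≤ L * ‖x - y‖ := fun x y =>
    le_of_tendsto ((continuous_abs.tendsto _).comp ((hu' x).sub (hu' y)))
      (Eventually.of_forall fun k => hlip k x y)
  have hu'c : Continuous u' := by
    have : LipschitzWith ⟨L, hL0⟩ u' := LipschitzWith.of_dist_le_mul fun x y => by
      rw [Real.dist_eq, dist_eq_norm]; exact hu'l x y
    exact this.continuous
  set f' : E → ℂ := fun x => ((u' x : ℝ) : ℂ) with hf'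
  have hf'c : Continuous f' := Complex.continuous_ofReal.comp hu'c
  have hf's : HasCompactSupport f' := HasCompactSupport.intro hK (fun x hx => by
    simp [hf', hu'z x hx])
  have hf'i : Integrable f' := hf'c.integrable_of_hasCompactSupport hf's
  -- convergence of the Fourier transforms
  have hFt : ∀ ξ, Tendsto (fun k => 𝓕 (f k) ξ) atTop (𝓝 (𝓕 f' ξ)) := by
    intro ξ
    simp_rw [Real.fourier_eq']
    refine tendsto_integral_of_dominated_convergence (K.indicator fun _ => B0) ?_ ?_ ?_ ?_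
    · intro k
      exact ((cont_exp (-2 * Real.pi) ξ).smul (hfc k)).aestronglyMeasurable
    · exact (continuous_const.continuousOn.integrableOn_compact hK).integrable_indicator
        hK.measurableSet
    · intro k
      refine Eventually.of_forall fun v => ?_
      rw [norm_smul, Complex.norm_exp_ofReal_mul_I, one_mul]
      have h2 : ‖f k v‖ = |u k v| := by simp [hf]
      rw [h2]
      by_cases hv : v ∈ K
      · rw [Set.indicator_of_mem hv]; exact hbd k v
      · rw [Set.indicator_of_notMem hv, hz k v hv, abs_zero]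
    · refine Eventually.of_forall fun v => ?_
      refine Tendsto.const_smul ?_ _
      exact (Complex.continuous_ofReal.tendsto _).comp (hu' v)
  have hFd : ∀ (M : ℕ) (ξ : E), ‖ξ‖ ^ M * ‖𝓕 f' ξ‖ ≤ C M := by
    intro M ξ
    refine le_of_tendsto ((((continuous_norm.tendsto _).comp (hFt ξ))).const_mul (‖ξ‖ ^ M)) ?_
    exact Eventually.of_forall fun k => hC M k ξ
  have hFm : Continuous (𝓕 f') := cont_fourier hf'i
  have hFi : ∀ n : ℕ, Integrable (fun ξ : E => ‖ξ‖ ^ n * ‖𝓕 f' ξ‖) := by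
    intro n
    obtain ⟨B, hB, hB'⟩ := decay_integrable (E := E) C n
    exact (hB' _ hFm.aestronglyMeasurable hFd).1
  have hF0 : Integrable (𝓕 f') := by
    have h := hFi 0
    simp only [pow_zero, one_mul] at h
    exact (integrable_norm_iff hFm.aestronglyMeasurable).1 h
  have hinv' : 𝓕⁻ (𝓕 f') = f' := hf'c.fourierInv_fourier_eq hf'i hF0
  have hsm : ContDiff ℝ ∞ (𝓕 (𝓕 f')) := Real.contDiff_fourier fun n _ => hFi n
  have hu's : ContDiff ℝ ∞ u' := by
    have h1 : u' = fun x => (𝓕 (𝓕 f') (-x)).re := by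
      funext x
      rw [← Real.fourierInv_eq_fourier_neg, hinv']
      simp [hf']
    rw [h1]
    exact Complex.reCLM.contDiff.comp (hsm.comp contDiff_neg)
  exact ⟨u', B0, hu's, hbd, hu'⟩

end

end Pool.Agent.H18.LD
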