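import Pool.Agent.H80.LD.Targets

/-!
# Row REG of the board ldp: regularity from the bounds for the differences
-/

set_option autoImplicit false

open MeasureTheory Filter Topology Module
open scoped ENNReal ContDiff InnerProductSpace FourierTransform NNReal
open Pool.Agent.H80.LD

namespace Pool.Agent.H18.LD

noncomputable section

theorem cutoff_continuous {E : Type} [TopologicalSpace E] {χ s : E → ℝ} {U : Set E}
    (hχ : Continuous χ) (hU : IsOpen U) (hχU : tsupport χ ⊆ U) (hs : ContinuousOn s U) :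
    Continuous (fun x => χ x * s x) := by
  refine continuous_of_tsupport fun x hx => ?_
  have hsub : tsupport (fun x => χ x * s x) ⊆ tsupport χ := tsupport_mul_subset_left
  exact hχ.continuousAt.mul (hs.continuousAt (hU.mem_nhds (hχU (hsub hx))))

theorem dm_equiv {E F : Type} [AddCommGroup E] [Module ℝ E] [AddCommGroup F] [Module ℝ F]
    (L : E ≃ₗ[ℝ] F) (m : ℕ) (h : ℝ) (v : E) (s : E → ℝ) (y : F) :
    dm m h (L v) (fun z => s (L.symm z)) y = dm m h v s (L.symm y) := by
  unfold dm
  refine Finset.sum_congr rfl fun i _ => ?_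
  show (-1) ^ i * (m.choose i : ℝ) * s (L.symm (y + ((i : ℝ) * h) • L v)) = _
  rw [map_add, map_smul, LinearEquiv.symm_apply_apply]

/-- the case of a point -/
theorem reg_point {E : Type} [NormedAddCommGroup E] [NormedSpace ℝ E] [MeasurableSpace E]
    [Subsingleton E] (ν : Measure E) (χ : E → ℝ) (s : ℕ → E → ℝ) (g : E → ℝ)
    (hg : ∫ y, g y ∂ν = 1) (l : ℝ)
    (hl : Tendsto (fun k => ∫ y, χ y * s k y * g y ∂ν) atTop (𝓝 l)) :
    ∃ (u : E → ℝ) (B : ℝ), ContDiff ℝ ∞ u ∧ (∀ k x, |χ x * s k x| ≤ B) ∧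
      ∀ x, Tendsto (fun k => χ x * s k x) atTop (𝓝 (u x)) := by
  have h1 : ∀ k, ∫ y, χ y * s k y * g y ∂ν = χ 0 * s k 0 := by
    intro k
    have h2 : (fun y => χ y * s k y * g y) = fun y => (χ 0 * s k 0) * g y := by
      funext y
      rw [Subsingleton.elim y 0]
    rw [h2, integral_const_mul, hg, mul_one]
  simp_rw [h1] at hl
  obtain ⟨B, hB⟩ := (hl.abs).bddAbove_range
  refine ⟨fun _ => l, B, contDiff_const, fun k x => ?_, fun x => ?_⟩
  · rw [Subsingleton.elim x 0]
    exact hB ⟨k, rfl⟩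
  · rw [Subsingleton.elim x 0]
    exact hl

theorem pf_REG (hFDC : T_FDC) (hLRG : T_LRG) : T_REG := by
  classical
  intro E _ _ _ _ _ ν _ χ U D C η s hχ hs hU hχU hD hη hsU hb hav
  rcases D.eq_empty_or_nonempty with hDe | hne
  · -- the space is a point
    have hsub : Subsingleton E := by
      rw [hDe, Finset.coe_empty, Submodule.span_empty] at hD
      exact (Submodule.subsingleton_iff ℝ).1 (subsingleton_of_bot_eq_top hD)
    obtain ⟨g, -, -, hg1, -, l, hl⟩ := hav 0 1 one_pos
    exact reg_point ν χ s g hg1 l hl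
  set L : E ≃L[ℝ] EuclideanSpace ℝ (Fin (finrank ℝ E)) := toEuclidean with hL
  set χ' : EuclideanSpace ℝ (Fin (finrank ℝ E)) → ℝ := fun z => χ (L.symm z) with hχ'
  set U' : Set (EuclideanSpace ℝ (Fin (finrank ℝ E))) := L.symm ⁻¹' U with hU'
  set s' : ℕ → EuclideanSpace ℝ (Fin (finrank ℝ E)) → ℝ := fun k z => s k (L.symm z) with hs'
  have hχ'd : ContDiff ℝ ∞ χ' := hχ.comp L.symm.contDiff
  have hχ's : HasCompactSupport χ' := hs.comp_homeomorph L.symm.toHomeomorph
  have hU'o : IsOpen U' := hU.preimage L.symm.continuous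
  have hχ'U : tsupport χ' ⊆ U' := by
    have h1 : tsupport χ' = L.symm.toHomeomorph ⁻¹' tsupport χ :=
      tsupport_comp_eq_preimage χ L.symm.toHomeomorph
    rw [h1]
    exact Set.preimage_mono hχU
  have hD' : Submodule.span ℝ ((D.image L : Finset _) : Set (EuclideanSpace ℝ (Fin (finrank ℝ E)))) =
      ⊤ := by
    rw [Finset.coe_image]
    have h1 : (L : E → EuclideanSpace ℝ (Fin (finrank ℝ E))) '' (D : Set E) =
        (L.toLinearEquiv : E →ₗ[ℝ] EuclideanSpace ℝ (Fin (finrank ℝ E))) '' (D : Set E) := rfl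
    rw [h1, Submodule.span_image, hD, Submodule.map_top, LinearEquiv.range]
  have hs'U : ∀ k, ContinuousOn (s' k) U' := fun k =>
    (hsU k).comp L.symm.continuous.continuousOn (Set.mapsTo_preimage _ _)
  have hb' : ∀ k m, ∀ w ∈ D.image L, ∀ h : ℝ, 0 < h → h ≤ η m → ∀ x ∈ U',
      (∀ i ≤ m, x + ((i : ℝ) * h) • w ∈ U') → |dm m h w (s' k) x| ≤ C m * h ^ m := by
    intro k m w hw h hh hle x hx hall
    obtain ⟨v, hv, rfl⟩ := Finset.mem_image.1 hw
    have h1 : dm m h (L v) (s' k) x = dm m h v (s k) (L.symm x) :=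
      dm_equiv L.toLinearEquiv m h v (s k) x
    rw [h1]
    refine hb k m v hv h hh hle _ hx fun i hi => ?_
    have h2 := hall i hi
    rw [hU', Set.mem_preimage, map_add, map_smul, ContinuousLinearEquiv.symm_apply_apply] at h2
    exact h2
  have hF := hFDC _ χ' U' (D.image L) C η hχ'd hχ's hU'o hχ'U hD' (hne.image L) hη
  have hdec : ∀ M : ℕ, ∃ K : ℝ, ∀ k ξ,
      ‖ξ‖ ^ M * ‖𝓕 (fun x => ((χ' x * s' k x : ℝ) : ℂ)) ξ‖ ≤ K := by
    intro M
    obtain ⟨K, hK⟩ := hF M
    exact ⟨K, fun k ξ => hK (s' k) (hs'U k) (fun m w hw h => hb' k m w hw h) ξ⟩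
  -- the measure
  have hHaar : (ν.map L).IsAddHaarMeasure := ContinuousLinearEquiv.isAddHaarMeasure_map L ν
  set c : ℝ≥0 := Measure.addHaarScalarFactor (ν.map L)
    (volume : Measure (EuclideanSpace ℝ (Fin (finrank ℝ E)))) with hc
  have hνc : ν.map L = c • (volume : Measure (EuclideanSpace ℝ (Fin (finrank ℝ E)))) :=
    Measure.isAddLeftInvariant_eq_smul _ _
  have hint : ∀ f : E → ℝ, ∫ z, (c : ℝ) * f (L.symm z) = ∫ x, f x ∂ν := by
    intro f
    have h1 : ∫ z, f (L.symm z) ∂(ν.map L) = ∫ x, f x ∂ν := by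
      have h2 := L.toHomeomorph.measurableEmbedding.integral_map (μ := ν)
        (fun z => f (L.symm z))
      have h3 : ∀ x, f (L.symm (L.toHomeomorph x)) = f x := fun x => by
        congr 1; exact L.symm_apply_apply x
      simp_rw [h3] at h2
      exact h2
    rw [← h1, hνc, integral_smul_nnreal_measure, integral_const_mul]
    rfl
  obtain ⟨u', B, hu', hB, hlim⟩ := hLRG _ (fun k x => χ' x * s' k x) (tsupport χ')
    hχ's.isCompact (fun k => cutoff_continuous hχ'd.continuous hU'o hχ'U (hs'U k))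
    (fun k x hx => by rw [image_eq_zero_of_notMem_tsupport hx, zero_mul]) hdec (by
      intro y δ hδ
      obtain ⟨g, hgc, hg0, hg1, hgs, l, hl⟩ := hav (L.symm y)
        (δ / (‖(L : E →L[ℝ] EuclideanSpace ℝ (Fin (finrank ℝ E)))‖ + 1)) (by positivity)
      refine ⟨fun z => (c : ℝ) * g (L.symm z), continuous_const.mul (hgc.comp L.symm.continuous),
        fun z => mul_nonneg c.2 (hg0 _), by rw [hint, hg1], ?_, l, ?_⟩
      · intro z hz
        have h1 := hgs (L.symm z) (right_ne_zero_of_mul hz)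
        rw [← map_sub, le_div_iff₀ (by positivity)] at h1
        have h2 : ‖z - y‖ ≤ ‖(L : E →L[ℝ] EuclideanSpace ℝ (Fin (finrank ℝ E)))‖ *
            ‖L.symm (z - y)‖ := by
          have h3 := (L : E →L[ℝ] EuclideanSpace ℝ (Fin (finrank ℝ E))).le_opNorm
            (L.symm (z - y))
          have h4 : (L : E →L[ℝ] EuclideanSpace ℝ (Fin (finrank ℝ E))) (L.symm (z - y)) =
            z - y := L.apply_symm_apply _
          rw [h4] at h3
          exact h3
        nlinarith [norm_nonneg (L.symm (z - y))]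
      · have h1 : ∀ k, ∫ z, χ' z * s' k z * ((c : ℝ) * g (L.symm z)) =
            ∫ y, χ y * s k y * g y ∂ν := by
          intro k
          rw [← hint (fun y => χ y * s k y * g y)]
          congr 1; funext z
          simp only [hχ', hs']
          ring
        simp_rw [h1]
        exact hl)
  refine ⟨fun x => u' (L x), B, hu'.comp L.contDiff, fun k x => ?_, fun x => ?_⟩
  · have h1 := hB k (L x)
    simp only [hχ', hs', ContinuousLinearEquiv.symm_apply_apply] at h1
    exact h1
  · have h1 := hlim (L x)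
    simp only [hχ', hs', ContinuousLinearEquiv.symm_apply_apply] at h1
    exact h1

end

end Pool.Agent.H18.LD
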